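import Pool.Agent.H20.OPF.Main

/-!
# Syzygies of Veronese embeddings: the conjecture of Ottaviani and Paoletti

For all `n, d ≥ 1` the line bundle `O(d)` on `ℙ^n` (over `ℂ`) satisfies property `N_p` for every
`p ≤ 3 d - 3`.  More generally the Koszul complex

`Λ^{i+1} V ⊗ S_{m-d} → Λ^i V ⊗ S_m → Λ^{i-1} V ⊗ S_{m+d}`,  `V = S_d`,

is exact in the middle for all `m ≥ 2 d` and all `i ≤ 2 m - d - 3`.  The complex is written out
exactly as in the frozen statement of the problem (which is the case `m = q d`, `q ≥ 2`,
`i ≤ p < 3 d - 2`).

Outline of the proof (characteristic `0`; everything is elementary linear algebra in the Koszul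
complex, written with the operators `E_μ` (multiplication by a letter `x^μ`), `J_μ` (contraction),
multiplication by polynomials and the derivations `x ∂_y` acting on everything).

0. `m > 2 d` follows from `m = 2 d` (`Pool/Agent/H95/OP`, `Pool/Agent/H20/S3`): odd letters.  If
   `H_{p-3}(m) = 0` and `H_{p-2}(m-1) = 0`, then every class of `H_p(m)` is a combination of classes
   of cycles in two variables, which are boundaries.
1. Let `m = 2 d`, `p ≤ 3 d - 3`; induction on `d` and on the number of variables.  Choose a variable
   `c`, `Q` = the other variables, `V = S_d(Q) ⊕ c A`, `A = S_{d-1}`; the differential is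
   `dS + c dA`.  (`Pool/Agent/H80/OP`, `Pool/Agent/H40`, model: `Pool/Agent/H34/OPM`.)
   - cycles with at most one letter outside `c A` are boundaries;
   - lemma Z: bi-closed elements modulo `c` are `dS` of `dA`-closed elements;
   - every leading term (part with the most letters outside `c A`, modulo `c`) which is closed for
     `dS` and for `dA` modulo `c` is the leading term of a cycle (lifting), and leading terms
     `dS y`, `y` closed for `dA` modulo `c`, are leading terms of boundaries.
2. The shape theorem (`Pool/Agent/H10/OP`, `Pool/Agent/H20/OPF/Chain.lean`): let `Γ(s, i)` be the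
   space of elements of `Λ^s S_d(Q) ⊗ Λ^i S_{d-1}(Q) ⊗ S_{2d}(Q)` closed for both differentials,
   `s ≥ 2`, `s + i ≤ 3 d - 3`.  A subspace `K` which is stable under all `x ∂_y`, which contains the
   products of `Γ` with forms of degree `d` and all vectors which have weight `> 6 d - 6 - 2 s - i`
   in some variable contains `Γ(s, i)`.  (Extract rows with odd letters and a Capelli identity;
   generation of `Γ` in coefficient degree at most the number of letters; then a count of degrees.)
3. The end (`Pool/Agent/H12/OP`): the letters `c^2 S_{d-2}` are passive in a leading term; a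
   leading term `z ∈ Γ(s, i)` times `j` such letters gives a map `φ` from `(S_{d-2})^{⊗ j}` to the
   homology; `c ∂_x`, `x ∂_c` act by `sl_2` on both sides, nilpotency of `x ∂_c` shows `φ = 0` if
   the weight of `z` in `x` is greater than `i + 2 j`.  So the space of the `z` with `φ = 0`
   satisfies the hypotheses of 2.
-/

open MvPolynomial

namespace Pool.Agent.Results.MP_85ff8f_ag.OttavianiPaoletti

theorem result :
    ∀ n d : ℕ, 1 ≤ n → 1 ≤ d →
    ∀ N : ℕ, ∀ φ : Fin N → MvPolynomial (Fin (n + 1)) ℂ,
      (∀ k, φ k ∈ MvPolynomial.homogeneousSubmodule (Fin (n + 1)) ℂ d) →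
      LinearIndependent ℂ φ →
      Submodule.span ℂ (Set.range φ) = MvPolynomial.homogeneousSubmodule (Fin (n + 1)) ℂ d →
      ∀ i m : ℕ, 2 * d ≤ m → i + d + 3 ≤ 2 * m →
      ∀ f : Finset (Fin N) → MvPolynomial (Fin (n + 1)) ℂ,
        (∀ I, f I ∈ MvPolynomial.homogeneousSubmodule (Fin (n + 1)) ℂ m) →
        (∀ I : Finset (Fin N), I.card ≠ i → f I = 0) →
        (∀ J : Finset (Fin N), J.card + 1 = i →
          ∑ b ∈ Jᶜ, (-1 : MvPolynomial (Fin (n + 1)) ℂ) ^ (J.filter (fun c => c < b)).card
            * φ b * f (insert b J) = 0) →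
        ∃ g : Finset (Fin N) → MvPolynomial (Fin (n + 1)) ℂ,
          (∀ I, g I ∈ MvPolynomial.homogeneousSubmodule (Fin (n + 1)) ℂ (m - d)) ∧
          (∀ I : Finset (Fin N), I.card ≠ i + 1 → g I = 0) ∧
          ∀ I : Finset (Fin N), I.card = i →
            f I = ∑ b ∈ Iᶜ, (-1 : MvPolynomial (Fin (n + 1)) ℂ) ^ (I.filter (fun c => c < b)).card
              * φ b * g (insert b I) := by
  intro n d _ hd N φ hφ hli hsp i m hm hi f hf hf0 hz
  exact Pool.Agent.H38.OPM.koszul_of (Pool.Agent.H20.OPF.known_all d hd) (n + 1) N φ hφ hli hsp i m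
    hm hi f hf hf0 hz

end Pool.Agent.Results.MP_85ff8f_ag.OttavianiPaoletti
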